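import Mathlib

/-!
# The circle as a manifold modelled on the half line, and doubles of diffeomorphisms
-/

set_option autoImplicit false

open Set Filter Topology Manifold
open scoped Manifold ContDiff

namespace Pool.Agent.Y122.Det

noncomputable section

/-- the model space -/
abbrev HS : Type := EuclideanHalfSpace 1

/-- the model with corners -/
abbrev IH : ModelWithCorners ℝ (EuclideanSpace ℝ (Fin 1)) HS :=
  modelWithCornersEuclideanHalfSpace 1

instance fact02 : Fact ((0 : ℝ) < 2) := ⟨two_pos⟩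

/-- the vector with coordinate `y` -/
def vec (y : ℝ) : EuclideanSpace ℝ (Fin 1) := WithLp.toLp 2 fun _ => y

theorem vec_zero (y : ℝ) : vec y 0 = y := rfl

theorem contDiff_vec {n : WithTop ℕ∞} : ContDiff ℝ n vec := by
  unfold vec
  fun_prop

theorem val_symm (x : EuclideanSpace ℝ (Fin 1)) : (IH.symm x).val 0 = max (x 0) 0 := by
  change (WithLp.toLp 2 (Function.update x.ofLp 0 (max (x 0) 0)) : EuclideanSpace ℝ (Fin 1)) 0 = _
  simp

/-- the half line is open in the half space -/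
def halfHomeo : OpenPartialHomeomorph ℝ HS where
  toFun y := IH.symm (vec y)
  invFun z := z.val 0
  source := Ioi 0
  target := {z | 0 < z.val 0}
  map_source' := by
    intro y hy
    change 0 < (IH.symm (vec y)).val 0
    rw [val_symm, vec_zero]
    exact lt_max_of_lt_left hy
  map_target' := fun z hz => hz
  left_inv' := by
    intro y hy
    rw [val_symm, vec_zero]
    exact max_eq_left (le_of_lt hy)
  right_inv' := by
    intro z hz
    apply Subtype.ext
    ext i
    rw [Subsingleton.elim i 0]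
    rw [val_symm, vec_zero]
    exact max_eq_left (le_of_lt hz)
  open_source := isOpen_Ioi
  open_target := by
    have h1 : Continuous fun z : HS => z.val 0 :=
      (PiLp.continuous_apply 2 (fun _ : Fin 1 => ℝ) 0).comp continuous_subtype_val
    exact isOpen_Ioi.preimage h1
  continuousOn_toFun := by
    have h1 : Continuous fun y : ℝ => IH.symm (vec y) :=
      IH.continuous_symm.comp (contDiff_vec (n := 0)).continuous
    exact h1.continuousOn
  continuousOn_invFun := by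
    have h1 : Continuous fun z : HS => z.val 0 :=
      (PiLp.continuous_apply 2 (fun _ : Fin 1 => ℝ) 0).comp continuous_subtype_val
    exact h1.continuousOn

/-- the section of the circle over `[a, a + 2)` -/
def sec (a : ℝ) (θ : AddCircle (2 : ℝ)) : ℝ := (AddCircle.equivIco 2 a θ : ℝ)

theorem sec_mem (a : ℝ) (θ : AddCircle (2 : ℝ)) : sec a θ ∈ Ico a (a + 2) :=
  (AddCircle.equivIco 2 a θ).2

theorem coe_sec (a : ℝ) (θ : AddCircle (2 : ℝ)) : ((sec a θ : ℝ) : AddCircle (2 : ℝ)) = θ :=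
  (AddCircle.equivIco 2 a).symm_apply_apply θ

theorem coe_sub_two (y : ℝ) (m : ℤ) :
    ((y - 2 * m : ℝ) : AddCircle (2 : ℝ)) = (y : AddCircle (2 : ℝ)) := by
  have h1 : ((2 * m : ℝ) : AddCircle (2 : ℝ)) = 0 := by
    rw [AddCircle.coe_eq_zero_iff]
    exact ⟨m, by rw [zsmul_eq_mul]; ring⟩
  rw [AddCircle.coe_sub, h1, sub_zero]

theorem sec_coe {a y : ℝ} (m : ℤ) (h : y - 2 * m ∈ Ico a (a + 2)) :
    sec a (y : AddCircle (2 : ℝ)) = y - 2 * m := by
  have h1 := sec_mem a (y : AddCircle (2 : ℝ))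
  have h2 := coe_sec a (y : AddCircle (2 : ℝ))
  rw [← coe_sub_two y m] at h2 h1 ⊢
  exact (AddCircle.coe_eq_coe_iff_of_mem_Ico h1 h).1 h2

theorem exists_shift (a y : ℝ) : ∃ m : ℤ, y - 2 * m ∈ Ico a (a + 2) := by
  have h1 := sec_mem a (y : AddCircle (2 : ℝ))
  have h2 := coe_sec a (y : AddCircle (2 : ℝ))
  rw [← sub_eq_zero, ← AddCircle.coe_sub, AddCircle.coe_eq_zero_iff] at h2
  obtain ⟨n, hn⟩ := h2
  refine ⟨-n, ?_⟩
  have h3 : y - 2 * ((-n : ℤ) : ℝ) = sec a (y : AddCircle (2 : ℝ)) := by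
    rw [zsmul_eq_mul] at hn
    push_cast
    linarith
  rw [h3]
  exact h1

/-- the chart of the circle with values in `(a, a + 2)` -/
def ch (a : ℝ) : OpenPartialHomeomorph (AddCircle (2 : ℝ)) HS :=
  (AddCircle.openPartialHomeomorphCoe 2 a).symm.trans halfHomeo

theorem ch_source {a : ℝ} (ha : 0 ≤ a) : (ch a).source = {(a : AddCircle (2 : ℝ))}ᶜ := by
  ext θ
  constructor
  · intro h
    exact h.1
  · intro h
    refine ⟨h, ?_⟩
    change (0 : ℝ) < sec a θ
    have h1 := sec_mem a θ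
    rcases eq_or_lt_of_le h1.1 with h2 | h2
    · exfalso
      apply h
      rw [mem_singleton_iff, ← coe_sec a θ, ← h2]
    · linarith

theorem ch_apply (a : ℝ) (θ : AddCircle (2 : ℝ)) : ch a θ = IH.symm (vec (sec a θ)) := rfl

theorem ch_symm_apply (a : ℝ) (z : HS) : (ch a).symm z = ((z.val 0 : ℝ) : AddCircle (2 : ℝ)) := rfl

instance chartedCircle : ChartedSpace HS (AddCircle (2 : ℝ)) where
  atlas := {e | ∃ a : ℝ, 0 ≤ a ∧ e = ch a}
  chartAt θ := ch (sec 0 θ + 1)
  mem_chart_source θ := by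
    have h1 := sec_mem 0 θ
    rw [ch_source (by linarith [h1.1])]
    rw [mem_compl_iff, mem_singleton_iff]
    intro h2
    have h3 := coe_sec 0 θ
    rw [← h3] at h2
    rw [← sub_eq_zero, ← AddCircle.coe_sub, AddCircle.coe_eq_zero_iff] at h2
    obtain ⟨n, hn⟩ := h2
    have h4 : sec 0 θ - (sec 0 θ + 1) = (-1 : ℝ) := by ring
    have h5 : (n : ℝ) * 2 = -1 := by
      rw [zsmul_eq_mul] at hn
      have h6 : sec 0 ((sec 0 θ : ℝ) : AddCircle (2 : ℝ)) = sec 0 θ := by rw [coe_sec]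
      linarith
    have h7 : n * 2 = -1 := by exact_mod_cast h5
    omega
  chart_mem_atlas θ := by
    have h1 := sec_mem 0 θ
    exact ⟨_, by linarith [h1.1], rfl⟩

theorem mem_Ioo_of_source {b y : ℝ} (h : (y : AddCircle (2 : ℝ)) ≠ (b : AddCircle (2 : ℝ))) :
    ∃ m : ℤ, y - 2 * m ∈ Ioo b (b + 2) := by
  obtain ⟨m, hm⟩ := exists_shift b y
  refine ⟨m, lt_of_le_of_ne hm.1 ?_, hm.2⟩
  intro h1
  apply h
  rw [← coe_sub_two y m, ← h1]

instance manifoldCircle : IsManifold IH ∞ (AddCircle (2 : ℝ)) := by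
  apply isManifold_of_contDiffOn
  rintro e e' ⟨a, ha, rfl⟩ ⟨b, hb, rfl⟩
  rintro v ⟨hv1, hv2⟩
  apply ContDiffAt.contDiffWithinAt
  -- the coordinate of the point
  have hy0 : a < (IH.symm v).val 0 := by
    have h1 : IH.symm v ∈ (ch a).target := hv1.1
    have h2 : (IH.symm v).val 0 ∈ Ioo a (a + 2) := h1.2
    exact h2.1
  have hv0 : a < v 0 := by
    rw [val_symm] at hy0
    rcases lt_max_iff.1 hy0 with h | h
    · exact h
    · linarith
  have hy : ∀ᶠ w : EuclideanSpace ℝ (Fin 1) in 𝓝 v, (IH.symm w).val 0 = w 0 := by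
    have h1 : Continuous fun w : EuclideanSpace ℝ (Fin 1) => w 0 :=
      PiLp.continuous_apply 2 (fun _ : Fin 1 => ℝ) 0
    have h2 : ∀ᶠ w : EuclideanSpace ℝ (Fin 1) in 𝓝 v, 0 < w 0 :=
      h1.continuousAt.eventually (lt_mem_nhds (lt_of_le_of_lt ha hv0))
    filter_upwards [h2] with w hw
    rw [val_symm]
    exact max_eq_left hw.le
  have hb1 : ((v 0 : ℝ) : AddCircle (2 : ℝ)) ≠ (b : AddCircle (2 : ℝ)) := by
    have h1 : (ch a).symm (IH.symm v) ∈ (ch b).source := hv1.2
    rw [ch_source hb, ch_symm_apply, hy.self_of_nhds] at h1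
    exact h1
  obtain ⟨m, hm⟩ := mem_Ioo_of_source hb1
  have hsec : ∀ᶠ w : EuclideanSpace ℝ (Fin 1) in 𝓝 v,
      sec b ((w 0 : ℝ) : AddCircle (2 : ℝ)) = w 0 - 2 * m := by
    have h1 : Continuous fun w : EuclideanSpace ℝ (Fin 1) => w 0 - 2 * m :=
      (PiLp.continuous_apply 2 (fun _ : Fin 1 => ℝ) 0).sub continuous_const
    have h2 : ∀ᶠ w : EuclideanSpace ℝ (Fin 1) in 𝓝 v, w 0 - 2 * m ∈ Ioo b (b + 2) :=
      h1.continuousAt.eventually (isOpen_Ioo.mem_nhds hm)
    filter_upwards [h2] with w hw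
    exact sec_coe m (Ioo_subset_Ico_self hw)
  have hpos : ∀ᶠ w : EuclideanSpace ℝ (Fin 1) in 𝓝 v, 0 ≤ sec b ((w 0 : ℝ) : AddCircle (2 : ℝ)) :=
    Eventually.of_forall fun w => hb.trans (sec_mem b _).1
  have key : (IH ∘ ((ch a).symm.trans (ch b)) ∘ IH.symm) =ᶠ[𝓝 v]
      fun w => w - vec (2 * m) := by
    filter_upwards [hy, hsec, hpos] with w h1 h2 h3
    change (IH.symm (vec (sec b (((IH.symm w).val 0 : ℝ) : AddCircle (2 : ℝ))))).val = _
    ext i
    rw [Subsingleton.elim i 0, val_symm, vec_zero, h1, max_eq_left h3, h2]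
    rfl
  refine ContDiffAt.congr_of_eventuallyEq ?_ key
  exact contDiffAt_id.sub contDiffAt_const

end

end Pool.Agent.Y122.Det
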