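import Mathlib
import Pool.Agent.Y122.Det.Circle

/-!
# Doubles of diffeomorphisms of the interval
-/

set_option autoImplicit false

open Set Filter Topology Manifold
open scoped Manifold ContDiff

namespace Pool.Agent.Y122.Det

noncomputable section

theorem ch_mem {a : ℝ} (ha : 0 ≤ a) :
    ch a ∈ IsManifold.maximalAtlas IH 1 (AddCircle (2 : ℝ)) := by
  have : IsManifold IH 1 (AddCircle (2 : ℝ)) := IsManifold.of_le (n := ∞) (by simp)
  exact IsManifold.subset_maximalAtlas ⟨a, ha, rfl⟩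

/-- the section `sec a` is smooth outside of `a` -/
theorem sec_smooth {a : ℝ} (ha : 0 ≤ a) {θ : AddCircle (2 : ℝ)} (h : θ ≠ (a : AddCircle (2 : ℝ))) :
    ContMDiffAt IH 𝓘(ℝ, ℝ) 1 (sec a) θ := by
  have : IsManifold IH 1 (AddCircle (2 : ℝ)) := IsManifold.of_le (n := ∞) (by simp)
  have h1 : ContMDiffAt IH IH 1 (ch a) θ := by
    refine contMDiffAt_of_mem_maximalAtlas (ch_mem ha) ?_
    rw [ch_source ha]
    exact h
  have h2 : ContMDiff IH 𝓘(ℝ, EuclideanSpace ℝ (Fin 1)) 1 IH := ModelWithCorners.contMDiff IH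
  have h3 : ContMDiff 𝓘(ℝ, EuclideanSpace ℝ (Fin 1)) 𝓘(ℝ, ℝ) 1
      (fun v : EuclideanSpace ℝ (Fin 1) => v 0) := by
    apply ContDiff.contMDiff
    fun_prop
  have h4 : sec a = fun θ => (IH (ch a θ)) 0 := by
    funext θ
    change sec a θ = (IH.symm (vec (sec a θ))).val 0
    rw [val_symm, vec_zero]
    exact (max_eq_left (ha.trans (sec_mem a θ).1)).symm
  rw [h4]
  exact (h3.contMDiffAt.comp _ (h2.contMDiffAt.comp _ h1))

/-- the covering of the circle by the line is smooth -/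
theorem coe_smooth : ContMDiff 𝓘(ℝ, ℝ) IH 1 (fun t : ℝ => (t : AddCircle (2 : ℝ))) := by
  have : IsManifold IH 1 (AddCircle (2 : ℝ)) := IsManifold.of_le (n := ∞) (by simp)
  intro t
  have h0 : (t : AddCircle (2 : ℝ)) ≠ ((t - 2 * (⌊(t - 1) / 2⌋ : ℤ) - 1 : ℝ) : AddCircle (2 : ℝ)) := by
    intro h
    rw [← sub_eq_zero, ← AddCircle.coe_sub, AddCircle.coe_eq_zero_iff] at h
    obtain ⟨n, hn⟩ := h
    rw [zsmul_eq_mul] at hn
    have h5 : (n : ℝ) * 2 = 2 * (⌊(t - 1) / 2⌋ : ℤ) + 1 := by linarith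
    have h7 : n * 2 = 2 * ⌊(t - 1) / 2⌋ + 1 := by exact_mod_cast h5
    omega
  set m : ℤ := ⌊(t - 1) / 2⌋ with hm
  have hm1 : (m : ℝ) ≤ (t - 1) / 2 := Int.floor_le _
  set y : ℝ := t - 2 * m with hy
  have hy1 : 1 ≤ y := by rw [hy]; linarith
  have ha : 0 ≤ y - 1 := by linarith
  -- the chart centered at the point
  have h1 : ContMDiffAt IH IH 1 (ch (y - 1)).symm (halfHomeo y) := by
    refine contMDiffAt_symm_of_mem_maximalAtlas (ch_mem ha) ?_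
    refine ⟨?_, ?_⟩
    · change 0 < (IH.symm (vec y)).val 0
      rw [val_symm, vec_zero]
      exact lt_max_of_lt_left (by linarith)
    · change (IH.symm (vec y)).val 0 ∈ Ioo (y - 1) (y - 1 + 2)
      rw [val_symm, vec_zero, max_eq_left (by linarith)]
      constructor <;> linarith
  have h2 : ContMDiffAt 𝓘(ℝ, EuclideanSpace ℝ (Fin 1)) IH 1 IH.symm (vec y) := by
    refine (ModelWithCorners.contMDiffOn_symm IH (n := 1)).contMDiffAt ?_
    have hr : range IH = {w : EuclideanSpace ℝ (Fin 1) | 0 ≤ w 0} := range_euclideanHalfSpace 1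
    rw [hr]
    have h3 : Continuous fun w : EuclideanSpace ℝ (Fin 1) => w 0 :=
      PiLp.continuous_apply 2 (fun _ : Fin 1 => ℝ) 0
    have h4 : {w : EuclideanSpace ℝ (Fin 1) | 0 < w 0} ∈ 𝓝 (vec y) :=
      (isOpen_Ioi.preimage h3).mem_nhds (by
        change 0 < (vec y) 0
        rw [vec_zero]
        linarith)
    refine mem_of_superset h4 fun w hw => ?_
    have hw1 : 0 < w 0 := hw
    exact hw1.le
  have h3 : ContMDiffAt 𝓘(ℝ, ℝ) 𝓘(ℝ, EuclideanSpace ℝ (Fin 1)) 1 (fun s : ℝ => vec (s - 2 * m)) t := by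
    apply ContDiffAt.contMDiffAt
    exact (contDiff_vec.comp (contDiff_id.sub contDiff_const)).contDiffAt
  have h4 : ContMDiffAt 𝓘(ℝ, ℝ) IH 1
      (fun s : ℝ => (ch (y - 1)).symm (IH.symm (vec (s - 2 * m)))) t :=
    h1.comp t (h2.comp t h3)
  refine h4.congr_of_eventuallyEq ?_
  have h5 : ∀ᶠ s : ℝ in 𝓝 t, 0 < s - 2 * m := by
    have h6 : Continuous fun s : ℝ => s - 2 * m := continuous_id.sub continuous_const
    refine h6.continuousAt.eventually (lt_mem_nhds ?_)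
    linarith
  filter_upwards [h5] with s hs
  rw [ch_symm_apply, val_symm, vec_zero, max_eq_left hs.le, coe_sub_two]

/-- A self map of the circle with a `C¹` lift is `C¹`. -/
theorem smooth_of_lift {F : AddCircle (2 : ℝ) → AddCircle (2 : ℝ)} {f : ℝ → ℝ}
    (hf : ContDiff ℝ 1 f) (h : ∀ t : ℝ, F (t : AddCircle (2 : ℝ)) = (f t : AddCircle (2 : ℝ))) :
    ContMDiff IH IH 1 F := by
  intro θ
  -- a base point different from `θ`
  obtain ⟨a, ha, hθ⟩ : ∃ a : ℝ, 0 ≤ a ∧ θ ≠ (a : AddCircle (2 : ℝ)) := by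
    by_cases h0 : θ = ((0 : ℝ) : AddCircle (2 : ℝ))
    · refine ⟨1, zero_le_one, ?_⟩
      rw [h0]
      intro h1
      rw [← sub_eq_zero, ← AddCircle.coe_sub, AddCircle.coe_eq_zero_iff] at h1
      obtain ⟨n, hn⟩ := h1
      rw [zsmul_eq_mul] at hn
      have h5 : (n : ℝ) * 2 = -1 := by linarith
      have h7 : n * 2 = -1 := by exact_mod_cast h5
      omega
    · exact ⟨0, le_rfl, h0⟩
  have h1 : F = fun θ => ((f (sec a θ) : ℝ) : AddCircle (2 : ℝ)) := by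
    funext θ
    rw [← h, coe_sec]
  rw [h1]
  exact coe_smooth.contMDiffAt.comp _ (hf.contMDiff.contMDiffAt.comp _ (sec_smooth ha hθ))

/-! ### The double of a self map of the interval -/

/-- the absolute value of a point of the circle -/
theorem norm_mem (θ : AddCircle (2 : ℝ)) : ‖θ‖ ∈ Icc (0 : ℝ) 1 := by
  refine ⟨norm_nonneg _, ?_⟩
  have := AddCircle.norm_le_half_period (p := (2 : ℝ)) (x := θ) two_ne_zero
  norm_num at this
  exact this

theorem norm_coe {s : ℝ} (hs : s ∈ Icc (0 : ℝ) 1) : ‖(s : AddCircle (2 : ℝ))‖ = s := by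
  rw [(AddCircle.norm_coe_eq_abs_iff (p := (2 : ℝ)) two_ne_zero).2]
  · exact abs_of_nonneg hs.1
  · rw [abs_of_nonneg hs.1]
    norm_num
    exact hs.2

/-- every point of the circle is plus or minus its absolute value -/
theorem eq_or (θ : AddCircle (2 : ℝ)) :
    ∃ s : Icc (0 : ℝ) 1, θ = ((s : ℝ) : AddCircle (2 : ℝ)) ∨ θ = -((s : ℝ) : AddCircle (2 : ℝ)) := by
  have h1 := sec_mem (-1) θ
  have h2 := coe_sec (-1) θ
  rcases le_total 0 (sec (-1) θ) with h | h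
  · exact ⟨⟨sec (-1) θ, h, by linarith [h1.2]⟩, Or.inl h2.symm⟩
  · refine ⟨⟨-sec (-1) θ, by linarith, by linarith [h1.1]⟩, Or.inr ?_⟩
    change θ = -((-sec (-1) θ : ℝ) : AddCircle (2 : ℝ))
    rw [AddCircle.coe_neg, neg_neg, h2]

open Classical in
/-- the double of a self map of the interval -/
def dbl (f : Icc (0 : ℝ) 1 → Icc (0 : ℝ) 1) (θ : AddCircle (2 : ℝ)) : AddCircle (2 : ℝ) :=
  if θ = ((‖θ‖ : ℝ) : AddCircle (2 : ℝ)) then (((f ⟨‖θ‖, norm_mem θ⟩ : Icc (0 : ℝ) 1) : ℝ) : AddCircle (2 : ℝ))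
  else -(((f ⟨‖θ‖, norm_mem θ⟩ : Icc (0 : ℝ) 1) : ℝ) : AddCircle (2 : ℝ))

theorem dbl_pos (f : Icc (0 : ℝ) 1 → Icc (0 : ℝ) 1) (s : Icc (0 : ℝ) 1) :
    dbl f ((s : ℝ) : AddCircle (2 : ℝ)) = (((f s : Icc (0 : ℝ) 1) : ℝ) : AddCircle (2 : ℝ)) := by
  have h1 := norm_coe s.2
  have h2 : (⟨‖((s : ℝ) : AddCircle (2 : ℝ))‖, norm_mem _⟩ : Icc (0 : ℝ) 1) = s := Subtype.ext h1
  rw [dbl, if_pos (by rw [h1]), h2]

/-- `f` preserves the end points -/
def Ends (f : Icc (0 : ℝ) 1 → Icc (0 : ℝ) 1) : Prop :=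
  ∀ s : Icc (0 : ℝ) 1, ((s : ℝ) = 0 ∨ (s : ℝ) = 1) → (((f s : Icc (0 : ℝ) 1) : ℝ) = 0 ∨ ((f s : Icc (0 : ℝ) 1) : ℝ) = 1)

theorem neg_end {s : ℝ} (hs : s = 0 ∨ s = 1) : -(s : AddCircle (2 : ℝ)) = (s : AddCircle (2 : ℝ)) := by
  rcases hs with rfl | rfl
  · simp
  · rw [← AddCircle.coe_neg, ← sub_eq_zero, ← AddCircle.coe_sub, AddCircle.coe_eq_zero_iff]
    exact ⟨-1, by norm_num⟩

theorem end_of_neg {s : ℝ} (hs : s ∈ Icc (0 : ℝ) 1)
    (h : -(s : AddCircle (2 : ℝ)) = (s : AddCircle (2 : ℝ))) : s = 0 ∨ s = 1 := by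
  rw [← AddCircle.coe_neg, ← sub_eq_zero, ← AddCircle.coe_sub, AddCircle.coe_eq_zero_iff] at h
  obtain ⟨n, hn⟩ := h
  rw [zsmul_eq_mul] at hn
  have h1 : (n : ℝ) = -s := by linarith
  have h2 : (n : ℝ) ≤ 0 := by linarith [hs.1]
  have h3 : (-1 : ℝ) ≤ n := by linarith [hs.2]
  have h4 : n ≤ 0 := by exact_mod_cast h2
  have h5 : -1 ≤ n := by exact_mod_cast h3
  have h6 : n = 0 ∨ n = -1 := by omega
  rcases h6 with h6 | h6
  · left
    rw [h6] at h1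
    push_cast at h1
    linarith
  · right
    rw [h6] at h1
    push_cast at h1
    linarith

theorem dbl_neg {f : Icc (0 : ℝ) 1 → Icc (0 : ℝ) 1} (hf : Ends f) (s : Icc (0 : ℝ) 1) :
    dbl f (-((s : ℝ) : AddCircle (2 : ℝ))) = -(((f s : Icc (0 : ℝ) 1) : ℝ) : AddCircle (2 : ℝ)) := by
  have h1 : ‖-((s : ℝ) : AddCircle (2 : ℝ))‖ = s := by rw [norm_neg, norm_coe s.2]
  have h2 : (⟨‖-((s : ℝ) : AddCircle (2 : ℝ))‖, norm_mem _⟩ : Icc (0 : ℝ) 1) = s := Subtype.ext h1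
  rw [dbl, h2]
  split_ifs with h
  · rw [h1] at h
    exact (neg_end (hf s (end_of_neg s.2 h))).symm
  · rfl

theorem dbl_comp {f g : Icc (0 : ℝ) 1 → Icc (0 : ℝ) 1} (hf : Ends f) (hg : Ends g)
    (θ : AddCircle (2 : ℝ)) : dbl (f ∘ g) θ = dbl f (dbl g θ) := by
  have hfg : Ends (f ∘ g) := fun s hs => hf _ (hg s hs)
  obtain ⟨s, rfl | rfl⟩ := eq_or θ
  · rw [dbl_pos, dbl_pos, dbl_pos]; rfl
  · rw [dbl_neg hfg, dbl_neg hg, dbl_neg hf]; rfl

theorem dbl_id (θ : AddCircle (2 : ℝ)) : dbl id θ = θ := by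
  have hid : Ends id := fun s hs => hs
  obtain ⟨s, rfl | rfl⟩ := eq_or θ
  · rw [dbl_pos]; rfl
  · rw [dbl_neg hid]; rfl

theorem dbl_inj {f g : Icc (0 : ℝ) 1 → Icc (0 : ℝ) 1} (h : dbl f = dbl g) : f = g := by
  funext s
  have h1 := congrFun h ((s : ℝ) : AddCircle (2 : ℝ))
  rw [dbl_pos, dbl_pos] at h1
  apply Subtype.ext
  have h2 := congrArg norm h1
  rwa [norm_coe (f s).2, norm_coe (g s).2] at h2

end

end Pool.Agent.Y122.Det
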