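import Mathlib
import Pool.Agent.Y122.Det.Double

/-!
# The double of a `C¹` self map of the interval is `C¹`
-/

set_option autoImplicit false

open Set Filter Topology Manifold MeasureTheory intervalIntegral
open scoped Manifold ContDiff

namespace Pool.Agent.Y122.Det

noncomputable section

variable (f : Icc (0 : ℝ) 1 → Icc (0 : ℝ) 1)

/-- the map as a function on the line -/
def hat (t : ℝ) : ℝ := (f (projIcc 0 1 zero_le_one t) : ℝ)

theorem hat_of_mem (s : Icc (0 : ℝ) 1) : hat f s = (f s : ℝ) := by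
  rw [hat, projIcc_val]

theorem hat_contDiffOn (hf : ContMDiff IH IH 1 f) : ContDiffOn ℝ 1 (hat f) (Icc 0 1) := by
  have h1 : ContMDiffOn 𝓘(ℝ, ℝ) IH 1 (projIcc (0 : ℝ) 1 zero_le_one) (Icc 0 1) :=
    contMDiffOn_projIcc (x := (0 : ℝ)) (y := 1)
  have h2 : ContMDiff IH 𝓘(ℝ, ℝ) 1 (fun z : Icc (0 : ℝ) 1 => (z : ℝ)) :=
    contMDiff_subtypeVal_Icc (x := (0 : ℝ)) (y := 1)
  have h3 : ContMDiffOn 𝓘(ℝ, ℝ) 𝓘(ℝ, ℝ) 1 (hat f) (Icc 0 1) :=
    (h2.comp hf).comp_contMDiffOn h1
  exact h3.contDiffOn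

/-- the derivative, extended to an even periodic function -/
def der (t : ℝ) : ℝ := derivWithin (hat f) (Icc 0 1) ‖(t : AddCircle (2 : ℝ))‖

theorem continuous_der (hf : ContMDiff IH IH 1 f) : Continuous (der f) := by
  have h1 : ContinuousOn (derivWithin (hat f) (Icc 0 1)) (Icc 0 1) :=
    (hat_contDiffOn f hf).continuousOn_derivWithin (uniqueDiffOn_Icc zero_lt_one) le_rfl
  have h2 : Continuous fun t : ℝ => ‖(t : AddCircle (2 : ℝ))‖ :=
    continuous_norm.comp (AddCircle.continuous_mk' 2)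
  exact h1.comp_continuous h2 fun t => norm_mem _

theorem der_of_mem {t : ℝ} (ht : t ∈ Icc (0 : ℝ) 1) :
    der f t = derivWithin (hat f) (Icc 0 1) t := by
  rw [der, norm_coe ht]

theorem der_neg (t : ℝ) : der f (-t) = der f t := by
  rw [der, der, AddCircle.coe_neg, norm_neg]

theorem der_periodic : Function.Periodic (der f) 2 := by
  intro t
  rw [der, der, AddCircle.coe_add_period]

/-- the lift of the double -/
def lif (t : ℝ) : ℝ := hat f 0 + ∫ x in (0 : ℝ)..t, der f x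

theorem lif_hasDerivAt (hf : ContMDiff IH IH 1 f) (t : ℝ) : HasDerivAt (lif f) (der f t) t := by
  have h1 := continuous_der f hf
  have h2 : HasDerivAt (fun u => ∫ x in (0 : ℝ)..u, der f x) (der f t) t :=
    (h1.integral_hasStrictDerivAt 0 t).hasDerivAt
  exact h2.const_add _

theorem lif_contDiff (hf : ContMDiff IH IH 1 f) : ContDiff ℝ 1 (lif f) := by
  rw [contDiff_one_iff_deriv]
  refine ⟨fun t => (lif_hasDerivAt f hf t).differentiableAt, ?_⟩
  have h1 : deriv (lif f) = der f := funext fun t => (lif_hasDerivAt f hf t).deriv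
  rw [h1]
  exact continuous_der f hf

theorem lif_of_mem (hf : ContMDiff IH IH 1 f) {t : ℝ} (ht : t ∈ Icc (0 : ℝ) 1) :
    lif f t = hat f t := by
  have h0 := hat_contDiffOn f hf
  have h1 : ∫ x in (0 : ℝ)..t, der f x = hat f t - hat f 0 := by
    refine intervalIntegral.integral_eq_sub_of_hasDerivAt_of_le ht.1 ?_ ?_ ?_
    · exact h0.continuousOn.mono (Icc_subset_Icc_right ht.2)
    · intro x hx
      have hx1 : x ∈ Ioo (0 : ℝ) 1 := ⟨hx.1, lt_of_lt_of_le hx.2 ht.2⟩
      rw [der_of_mem f (Ioo_subset_Icc_self hx1)]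
      have h2 : DifferentiableWithinAt ℝ (hat f) (Icc 0 1) x :=
        h0.differentiableOn one_ne_zero x (Ioo_subset_Icc_self hx1)
      exact h2.hasDerivWithinAt.hasDerivAt (Icc_mem_nhds hx1.1 hx1.2)
    · exact (continuous_der f hf).intervalIntegrable _ _
  rw [lif, h1]
  ring

theorem lif_neg (t : ℝ) : lif f (-t) = 2 * hat f 0 - lif f t := by
  have h1 : ∫ x in (0 : ℝ)..(-t), der f x = -∫ x in (0 : ℝ)..t, der f x := by
    have h2 : ∫ x in (0 : ℝ)..t, der f (-x) = ∫ x in (-t)..(-0), der f x :=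
      intervalIntegral.integral_comp_neg (der f)
    simp only [der_neg, neg_zero] at h2
    rw [h2, intervalIntegral.integral_symm]
  rw [lif, lif, h1]
  ring

theorem lif_add_two (hf : ContMDiff IH IH 1 f) (t : ℝ) :
    lif f (t + 2) = lif f t + 2 * (hat f 1 - hat f 0) := by
  have hc := continuous_der f hf
  have h1 : ∫ x in (0 : ℝ)..(t + 2), der f x =
      (∫ x in (0 : ℝ)..t, der f x) + ∫ x in t..(t + 2), der f x :=
    (intervalIntegral.integral_add_adjacent_intervals (hc.intervalIntegrable _ _)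
      (hc.intervalIntegrable _ _)).symm
  have h2 : ∫ x in t..(t + 2), der f x = ∫ x in (-1 : ℝ)..(-1 + 2), der f x :=
    (der_periodic f).intervalIntegral_add_eq t (-1)
  have h3 : ∫ x in (-1 : ℝ)..(-1 + 2), der f x =
      (∫ x in (-1 : ℝ)..0, der f x) + ∫ x in (0 : ℝ)..1, der f x := by
    rw [intervalIntegral.integral_add_adjacent_intervals (hc.intervalIntegrable _ _)
      (hc.intervalIntegrable _ _)]
    norm_num
  have h4 : ∫ x in (-1 : ℝ)..0, der f x = ∫ x in (0 : ℝ)..1, der f x := by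
    have h5 : ∫ x in (0 : ℝ)..1, der f (-x) = ∫ x in (-1 : ℝ)..(-0), der f x :=
      intervalIntegral.integral_comp_neg (der f)
    simp only [der_neg, neg_zero] at h5
    exact h5.symm
  have h6 : lif f 1 = hat f 1 := lif_of_mem f hf ⟨zero_le_one, le_rfl⟩
  have h7 : ∫ x in (0 : ℝ)..1, der f x = hat f 1 - hat f 0 := by
    rw [lif] at h6
    linarith
  rw [lif, lif, h1, h2, h3, h4, h7]
  ring

theorem hat_end (he : Ends f) : (hat f 0 = 0 ∨ hat f 0 = 1) ∧ (hat f 1 = 0 ∨ hat f 1 = 1) := by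
  have h0 : hat f 0 = (f ⟨0, ⟨le_rfl, zero_le_one⟩⟩ : ℝ) := hat_of_mem f ⟨0, ⟨le_rfl, zero_le_one⟩⟩
  have h1 : hat f 1 = (f ⟨1, ⟨zero_le_one, le_rfl⟩⟩ : ℝ) := hat_of_mem f ⟨1, ⟨zero_le_one, le_rfl⟩⟩
  rw [h0, h1]
  exact ⟨he _ (Or.inl rfl), he _ (Or.inr rfl)⟩

theorem coe_two_mul_end {c : ℝ} (hc : c = 0 ∨ c = 1) : ((2 * c : ℝ) : AddCircle (2 : ℝ)) = 0 := by
  rcases hc with rfl | rfl
  · simp
  · rw [mul_one]
    exact AddCircle.coe_period 2

theorem lif_periodic (hf : ContMDiff IH IH 1 f) (he : Ends f) :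
    Function.Periodic (fun t : ℝ => (lif f t : AddCircle (2 : ℝ))) 2 := by
  intro t
  obtain ⟨h0, h1⟩ := hat_end f he
  change ((lif f (t + 2) : ℝ) : AddCircle (2 : ℝ)) = _
  rw [lif_add_two f hf, mul_sub, AddCircle.coe_add, AddCircle.coe_sub, coe_two_mul_end h0,
    coe_two_mul_end h1]
  simp

theorem lif_spec (hf : ContMDiff IH IH 1 f) (he : Ends f) (t : ℝ) :
    dbl f (t : AddCircle (2 : ℝ)) = (lif f t : AddCircle (2 : ℝ)) := by
  have hP := lif_periodic f hf he
  have key : ∀ u : ℝ, (t : AddCircle (2 : ℝ)) = (u : AddCircle (2 : ℝ)) →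
      (lif f t : AddCircle (2 : ℝ)) = (lif f u : AddCircle (2 : ℝ)) := by
    intro u h
    rw [← sub_eq_zero, ← AddCircle.coe_sub, AddCircle.coe_eq_zero_iff] at h
    obtain ⟨n, hn⟩ := h
    have h1 : t = u + n • (2 : ℝ) := by linarith
    have h2 := hP.zsmul n u
    rw [h1]
    exact h2
  obtain ⟨s, h | h⟩ := eq_or (t : AddCircle (2 : ℝ))
  · rw [key s h, h, dbl_pos, lif_of_mem f hf s.2, hat_of_mem]
  · rw [← AddCircle.coe_neg] at h
    rw [key _ h, h, AddCircle.coe_neg, dbl_neg he, lif_neg, AddCircle.coe_sub,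
      coe_two_mul_end (hat_end f he).1, zero_sub, lif_of_mem f hf s.2, hat_of_mem]

theorem dbl_smooth (hf : ContMDiff IH IH 1 f) (he : Ends f) : ContMDiff IH IH 1 (dbl f) :=
  smooth_of_lift (lif_contDiff f hf) (lif_spec f hf he)

end

end Pool.Agent.Y122.Det
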