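import Mathlib
import Pool.Agent.Y122.Det.Smooth

/-!
# Groups acting on the interval act on the circle
-/

set_option autoImplicit false

open Set Filter Topology Manifold
open scoped Manifold ContDiff

namespace Pool.Agent.Y122.Det

noncomputable section

/-- a continuous bijection of the interval preserves the end points -/
theorem ends_of_perm (f : Equiv.Perm (Icc (0 : ℝ) 1)) (hf : Continuous f) : Ends f := by
  have h1 : ContinuousOn (hat f) (Icc 0 1) := by
    have h2 : Continuous (hat f) :=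
      continuous_subtype_val.comp (hf.comp continuous_projIcc)
    exact h2.continuousOn
  have hinj : InjOn (hat f) (Icc 0 1) := by
    intro x hx y hy hxy
    have e1 := hat_of_mem f ⟨x, hx⟩
    have e2 := hat_of_mem f ⟨y, hy⟩
    have e3 : f ⟨x, hx⟩ = f ⟨y, hy⟩ := by
      apply Subtype.ext
      rw [← e1, ← e2]
      exact hxy
    exact congrArg Subtype.val (f.injective e3)
  have hle0 : (0 : ℝ) ∈ Icc (0 : ℝ) 1 := ⟨le_rfl, zero_le_one⟩
  have hle1 : (1 : ℝ) ∈ Icc (0 : ℝ) 1 := ⟨zero_le_one, le_rfl⟩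
  obtain ⟨u, hu⟩ := f.surjective ⟨0, hle0⟩
  obtain ⟨v, hv⟩ := f.surjective ⟨1, hle1⟩
  have hu' : hat f u = 0 := by rw [hat_of_mem, hu]
  have hv' : hat f v = 1 := by rw [hat_of_mem, hv]
  have hbd : ∀ s : Icc (0 : ℝ) 1, hat f s ∈ Icc (0 : ℝ) 1 := by
    intro s
    rw [hat_of_mem]
    exact (f s).2
  have hb0 := hbd ⟨0, hle0⟩
  have hb1 := hbd ⟨1, hle1⟩
  rintro ⟨s, hs⟩ hs01
  have hgoal : hat f s = 0 ∨ hat f s = 1 → ((f ⟨s, hs⟩ : Icc (0 : ℝ) 1) : ℝ) = 0 ∨
      ((f ⟨s, hs⟩ : Icc (0 : ℝ) 1) : ℝ) = 1 := by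
    intro h
    rw [← hat_of_mem f ⟨s, hs⟩]
    exact h
  apply hgoal
  rcases h1.strictMonoOn_of_injOn_Icc' zero_le_one hinj with hm | hm
  · rcases hs01 with h | h
    · left
      change s = 0 at h
      subst h
      have h2 := hm.monotoneOn hle0 u.2 u.2.1
      rw [hu'] at h2
      exact le_antisymm h2 hb0.1
    · right
      change s = 1 at h
      subst h
      have h2 := hm.monotoneOn v.2 hle1 v.2.2
      rw [hv'] at h2
      exact le_antisymm hb1.2 h2
  · rcases hs01 with h | h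
    · right
      change s = 0 at h
      subst h
      have h2 := hm.antitoneOn hle0 v.2 v.2.1
      rw [hv'] at h2
      exact le_antisymm hb0.2 h2
    · left
      change s = 1 at h
      subst h
      have h2 := hm.antitoneOn u.2 hle1 u.2.2
      rw [hu'] at h2
      exact le_antisymm h2 hb1.1

/-- A group acting faithfully on the interval by `C¹` diffeomorphisms acts faithfully on the
circle by `C¹` diffeomorphisms. -/
theorem act {G : Type} [Group G] (ρ : G →* Equiv.Perm (Icc (0 : ℝ) 1)) (hρ : Function.Injective ρ)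
    (hs : ∀ g, ContMDiff IH IH 1 (ρ g)) :
    ∃ σ : G →* Equiv.Perm (AddCircle (2 : ℝ)), Function.Injective σ ∧
      ∀ g, ContMDiff IH IH 1 (σ g) := by
  have he : ∀ g, Ends (ρ g) := fun g => ends_of_perm (ρ g) (hs g).continuous
  have hcomp : ∀ g h : G, ∀ θ, dbl (ρ (g * h)) θ = dbl (ρ g) (dbl (ρ h) θ) := by
    intro g h θ
    rw [map_mul]
    exact dbl_comp (he g) (he h) θ
  have hone : ∀ θ, dbl (ρ 1) θ = θ := by
    intro θ
    rw [map_one]
    exact dbl_id θ
  let σ : G →* Equiv.Perm (AddCircle (2 : ℝ)) :=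
    { toFun := fun g =>
        { toFun := dbl (ρ g)
          invFun := dbl (ρ g⁻¹)
          left_inv := fun θ => by rw [← hcomp, inv_mul_cancel, hone]
          right_inv := fun θ => by rw [← hcomp, mul_inv_cancel, hone] }
      map_one' := Equiv.ext hone
      map_mul' := fun g h => Equiv.ext (hcomp g h) }
  refine ⟨σ, ?_, fun g => dbl_smooth (ρ g) (hs g) (he g)⟩
  intro g h hgh
  apply hρ
  have h1 : dbl (ρ g) = dbl (ρ h) := by
    funext θ
    exact congrFun (congrArg DFunLike.coe hgh) θ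
  exact DFunLike.coe_injective (dbl_inj h1)

/-- the interval is not homeomorphic to the circle -/
theorem not_homeo (φ : Icc (0 : ℝ) 1 ≃ₜ AddCircle (2 : ℝ)) : False := by
  -- the middle point
  let p : Icc (0 : ℝ) 1 := ⟨1 / 2, by norm_num, by norm_num⟩
  -- the complement of a point in the circle is connected
  obtain ⟨a, ha⟩ : ∃ a : ℝ, (a : AddCircle (2 : ℝ)) = φ p := ⟨sec 0 (φ p), coe_sec 0 _⟩
  have h1 : IsPreconnected ({φ p}ᶜ : Set (AddCircle (2 : ℝ))) := by
    have h2 : ({φ p}ᶜ : Set (AddCircle (2 : ℝ))) =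
        (fun t : ℝ => (t : AddCircle (2 : ℝ))) '' Ioo a (a + 2) := by
      ext θ
      constructor
      · intro h
        have h3 : ((sec a θ : ℝ) : AddCircle (2 : ℝ)) ≠ (a : AddCircle (2 : ℝ)) := by
          rw [coe_sec, ha]
          exact h
        have h4 := sec_mem a θ
        refine ⟨sec a θ, ⟨lt_of_le_of_ne h4.1 ?_, h4.2⟩, coe_sec a θ⟩
        intro h5
        apply h3
        rw [← h5]
      · rintro ⟨t, ht, rfl⟩ h
        rw [mem_singleton_iff, ← ha] at h
        have h5 := (AddCircle.coe_eq_coe_iff_of_mem_Ico (Ioo_subset_Ico_self ht)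
          (left_mem_Ico.2 (by linarith))).1 h
        exact absurd h5 (ne_of_gt ht.1)
    rw [h2]
    exact isPreconnected_Ioo.image _ (AddCircle.continuous_mk' 2).continuousOn
  have h2 : IsPreconnected ({p}ᶜ : Set (Icc (0 : ℝ) 1)) := by
    have h3 : ({p}ᶜ : Set (Icc (0 : ℝ) 1)) = φ.symm '' ({φ p}ᶜ : Set (AddCircle (2 : ℝ))) := by
      rw [image_compl_eq φ.symm.bijective, image_singleton, φ.symm_apply_apply]
    rw [h3]
    exact h1.image _ φ.symm.continuous.continuousOn
  -- but the complement of the middle point of the interval is not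
  have h3 : IsPreconnected (Subtype.val '' ({p}ᶜ : Set (Icc (0 : ℝ) 1))) :=
    h2.image _ continuous_subtype_val.continuousOn
  have h0 : (0 : ℝ) ∈ Subtype.val '' ({p}ᶜ : Set (Icc (0 : ℝ) 1)) := by
    refine ⟨⟨0, le_rfl, zero_le_one⟩, ?_, rfl⟩
    intro h
    have := congrArg Subtype.val h
    norm_num [p] at this
  have h01 : (1 : ℝ) ∈ Subtype.val '' ({p}ᶜ : Set (Icc (0 : ℝ) 1)) := by
    refine ⟨⟨1, zero_le_one, le_rfl⟩, ?_, rfl⟩
    intro h
    have := congrArg Subtype.val h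
    norm_num [p] at this
  have h4 : (1 / 2 : ℝ) ∈ Subtype.val '' ({p}ᶜ : Set (Icc (0 : ℝ) 1)) :=
    h3.Icc_subset h0 h01 ⟨by norm_num, by norm_num⟩
  obtain ⟨q, hq, hq2⟩ := h4
  apply hq
  exact Subtype.ext hq2

theorem main :
    ¬ (∀ (k : ℕ∞), 1 ≤ k →
  ∀ (n : ℕ) [NeZero n] (M : Type) [TopologicalSpace M] [T2Space M] [CompactSpace M]
    [ConnectedSpace M] [ChartedSpace (EuclideanHalfSpace n) M]
    [IsManifold (modelWithCornersEuclideanHalfSpace n) ((⊤ : ℕ∞) : WithTop ℕ∞) M],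
  ∃ (G : Type) (_ : Group G), Group.FG G ∧
    ∀ (N : Type) [TopologicalSpace N] [T2Space N] [CompactSpace N] [ConnectedSpace N]
      [ChartedSpace (EuclideanHalfSpace n) N]
      [IsManifold (modelWithCornersEuclideanHalfSpace n) ((⊤ : ℕ∞) : WithTop ℕ∞) N],
      ((∃ ρ : G →* Equiv.Perm N, Function.Injective ρ ∧
          ∀ g : G, ContMDiff (modelWithCornersEuclideanHalfSpace n)
            (modelWithCornersEuclideanHalfSpace n) (k : WithTop ℕ∞) (ρ g)) ↔
        Nonempty (Diffeomorph (modelWithCornersEuclideanHalfSpace n)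
          (modelWithCornersEuclideanHalfSpace n) M N (k : WithTop ℕ∞)))) := by
  intro H
  obtain ⟨G, _, -, hG⟩ := H 1 le_rfl 1 (Icc (0 : ℝ) 1)
  obtain ⟨ρ, hρ, hs⟩ := (hG (Icc (0 : ℝ) 1)).2 ⟨Diffeomorph.refl _ _ _⟩
  obtain ⟨σ, hσ, hσs⟩ := act ρ hρ hs
  obtain ⟨φ⟩ := (hG (AddCircle (2 : ℝ))).1 ⟨σ, hσ, hσs⟩
  exact not_homeo φ.toHomeomorph

end

end Pool.Agent.Y122.Det
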